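import Pool.Agent.TH697.CW6.Sem

set_option autoImplicit false
set_option linter.unusedVariables false
set_option linter.unusedSectionVars false

open Finset
open Pool.Agent.Helper347.Sab

namespace Pool.Agent.TH697.CW6

variable {V E : Type} [Fintype V] [DecidableEq V] [Fintype E] [DecidableEq E]

/-- The edge e has an end in the set X. -/
def Tch (G : MGraph V E) (X : Finset V) (e : E) : Prop := ∃ v ∈ X, v ∈ G.ends e

instance (G : MGraph V E) (X : Finset V) (e : E) : Decidable (Tch G X e) :=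
  inferInstanceAs (Decidable (∃ v ∈ X, v ∈ G.ends e))

/-- The set of edges with one end in X and one end outside X. -/
def cut (G : MGraph V E) (X : Finset V) : Finset E :=
  univ.filter fun e => (∃ v ∈ X, v ∈ G.ends e) ∧ ∃ v, v ∉ X ∧ v ∈ G.ends e

theorem tch_iff {G : MGraph V E} {e : E} {a b : V} (he : G.ends e = s(a, b)) (X : Finset V) :
    Tch G X e ↔ a ∈ X ∨ b ∈ X := by
  unfold Tch
  rw [he]
  simp only [Sym2.mem_iff]
  constructor
  · rintro ⟨v, hv, h | h⟩
    · subst h; exact Or.inl hv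
    · subst h; exact Or.inr hv
  · rintro (h | h)
    · exact ⟨a, h, Or.inl rfl⟩
    · exact ⟨b, h, Or.inr rfl⟩

theorem cut_iff {G : MGraph V E} {e : E} {a b : V} (he : G.ends e = s(a, b)) (X : Finset V) :
    e ∈ cut G X ↔ (a ∈ X ∧ b ∉ X) ∨ (b ∈ X ∧ a ∉ X) := by
  unfold cut
  rw [mem_filter, he]
  simp only [mem_univ, true_and, Sym2.mem_iff]
  constructor
  · rintro ⟨⟨v, hv, h | h⟩, ⟨w, hw, h' | h'⟩⟩
    · subst h; subst h'; exact absurd hv hw
    · subst h; subst h'; exact Or.inl ⟨hv, hw⟩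
    · subst h; subst h'; exact Or.inr ⟨hv, hw⟩
    · subst h; subst h'; exact absurd hv hw
  · rintro (⟨h, h'⟩ | ⟨h, h'⟩)
    · exact ⟨⟨a, h, Or.inl rfl⟩, ⟨b, h', Or.inr rfl⟩⟩
    · exact ⟨⟨b, h, Or.inr rfl⟩, ⟨a, h', Or.inl rfl⟩⟩

theorem mem_ends_iff {G : MGraph V E} {e : E} {a b : V} (he : G.ends e = s(a, b)) (v : V) :
    v ∈ G.ends e ↔ v = a ∨ v = b := by
  rw [he, Sym2.mem_iff]

theorem tch_of_cut {G : MGraph V E} {X : Finset V} {e : E} (h : e ∈ cut G X) : Tch G X e := by
  obtain ⟨a, b, hab, he⟩ := exists_ends G e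
  rw [cut_iff he] at h
  rw [tch_iff he]
  tauto

theorem cut_insert {G : MGraph V E} {X : Finset V} {v : V} (hv : v ∉ X) (e : E) :
    e ∈ cut G (insert v X) ↔ (e ∈ cut G X ∧ v ∉ G.ends e) ∨ (v ∈ G.ends e ∧ e ∉ cut G X) := by
  obtain ⟨a, b, hab, he⟩ := exists_ends G e
  rw [cut_iff he, cut_iff he, mem_ends_iff he, mem_insert, mem_insert]
  by_cases h1 : v = a
  · subst h1
    have h2 : v ≠ b := hab
    have h3 : b ≠ v := fun h => h2 h.symm
    tauto
  · by_cases h2 : v = b
    · subst h2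
      tauto
    · have h3 : a ≠ v := fun h => h1 h.symm
      have h4 : b ≠ v := fun h => h2 h.symm
      tauto

/-- an edge at a vertex outside X which touches X leaves X -/
theorem cut_of_tch {G : MGraph V E} {X : Finset V} {v : V} (hv : v ∉ X) {e : E}
    (h : Tch G X e) (h' : v ∈ G.ends e) : e ∈ cut G X := by
  obtain ⟨a, b, hab, he⟩ := exists_ends G e
  rw [tch_iff he] at h
  rw [mem_ends_iff he] at h'
  rw [cut_iff he]
  rcases h' with h' | h'
  · subst h'; tauto
  · subst h'; tauto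

theorem tch_insert {G : MGraph V E} {X : Finset V} {v : V} {e : E} :
    Tch G (insert v X) e ↔ Tch G X e ∨ v ∈ G.ends e := by
  unfold Tch
  simp only [mem_insert, exists_eq_or_imp]
  exact or_comm

/-- a path system in S inside X whose ports are given by the mask m -/
def Pth (G : MGraph V E) (S : Finset E) (X : Finset V) (o : ℕ → E) (k m : ℕ) : Prop :=
  ∃ D ⊆ S, (∀ w ∈ X, Even (dg G D w)) ∧ (∀ e ∈ D, Tch G X e) ∧
    ∀ i < k, (o i ∈ D ↔ m.testBit i = true)

/-- a cut inside X with at most c inner edges and with the ports p -/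
def Fct (G : MGraph V E) (X : Finset V) (o : ℕ → E) (k : ℕ) (p : ℕ → Prop) (c : ℕ) : Prop :=
  ∃ Y ⊆ X, Y.Nonempty ∧ (X \ Y).Nonempty ∧ (∀ i < k, (p i ↔ Tch G Y (o i))) ∧
    (univ.filter fun e => Tch G Y e ∧ Tch G (X \ Y) e).card ≤ c

/-- f colours the edges meeting X -/
def Val (G : MGraph V E) (S : Finset E) (X : Finset V) (f : E → ℕ) : Prop :=
  (∀ e, f e < 32) ∧
  (∀ w ∈ X, ∀ c < 5, Even (dg G (univ.filter fun e => (f e).testBit c = true) w)) ∧
  ∀ e, Tch G X e → pcM (f e) = if e ∈ S then 1 else 2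

structure Inv (G : MGraph V E) (S : Finset E) (X : Finset V) (t : Ty) (o : ℕ → E) : Prop where
  mem : ∀ i < t.k, o i ∈ cut G X
  sur : ∀ e ∈ cut G X, ∃ i < t.k, o i = e
  inj : ∀ i < t.k, ∀ j < t.k, o i = o j → i = j
  ons : ∀ i < t.k, (o i ∈ S ↔ i < t.s)
  lnk : ∀ i, 2 * i + 1 < t.s → Pth G S X o t.k (3 <<< (2 * i))
  cls : t.cl = true → ∀ e ∈ S, ∀ v ∈ G.ends e, v ∈ X
  fct : ∀ P ∈ t.fs, Fct G X o t.k (fun i => P.1.testBit i = true) P.2
  sts : ∀ j < t.n, ∃ f, Val G S X f ∧ ∀ i < t.k, f (o i) = rowOf t.st j i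

/-- the situation of one step -/
structure Ctx (G : MGraph V E) (S : Finset E) (X : Finset V) (t : Ty) (o : ℕ → E) (v : V)
    (lm b r : ℕ) (n : ℕ → E) : Prop where
  inv : Inv G S X t o
  hk : t.k ≤ 6
  hv : v ∉ X
  hlm : ∀ i, (lm.testBit i = true ↔ (i < t.k ∧ v ∈ G.ends (o i)))
  hn : ∀ q < r, v ∈ G.ends (n q) ∧ n q ∉ cut G X
  hns : ∀ e, v ∈ G.ends e → e ∉ cut G X → ∃ q < r, n q = e
  hni : ∀ q < r, ∀ q' < r, n q = n q' → q = q'
  hnS : ∀ q < r, (n q ∈ S ↔ q < b)
  hr : r + pcM lm = 3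
  hb : b ≤ r

def src (o n : ℕ → E) (x : ℕ) : E := if x < 6 then o x else n (x - 6)

section
variable {G : MGraph V E} {S : Finset E} {X : Finset V} {t : Ty} {o : ℕ → E} {v : V}
  {lm b r : ℕ} {n : ℕ → E}

theorem card_ports (hk : t.k ≤ 6) (I : Inv G S X t o) (A : Finset E) (hA : A ⊆ cut G X) (m : ℕ)
    (hm : ∀ i, (m.testBit i = true ↔ (i < t.k ∧ o i ∈ A))) : pcM m = A.card := by
  have h64 : m < 64 := by
    apply lt64_of
    intro i hi
    cases h : m.testBit i
    · rfl
    · have := ((hm i).1 h).1; omega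
  rw [pcM_eq m h64]
  have : A = ((range 6).filter fun i => m.testBit i = true).image o := by
    ext e
    simp only [mem_image, mem_filter, mem_range]
    constructor
    · intro he
      obtain ⟨i, hi, h⟩ := I.sur e (hA he)
      refine ⟨i, ⟨by omega, (hm i).2 ⟨hi, by rw [h]; exact he⟩⟩, h⟩
    · rintro ⟨i, ⟨_, hi⟩, h⟩
      rw [← h]; exact ((hm i).1 hi).2
  rw [this, card_image_of_injOn]
  intro i hi j hj hij
  simp only [coe_filter, mem_range, Set.mem_setOf_eq] at hi hj
  exact I.inj i ((hm i).1 hi.2).1 j ((hm j).1 hj.2).1 hij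

theorem Ctx.lm64 (C : Ctx G S X t o v lm b r n) : lm < 64 := by
  apply lt64_of
  intro i hi
  cases h : lm.testBit i
  · rfl
  · have := ((C.hlm i).1 h).1; have := C.hk; omega

/-- the new edges do not touch X -/
theorem Ctx.ntch (C : Ctx G S X t o v lm b r n) {q : ℕ} (hq : q < r) : ¬ Tch G X (n q) :=
  fun h => (C.hn q hq).2 (cut_of_tch C.hv h (C.hn q hq).1)

theorem Ctx.rle (C : Ctx G S X t o v lm b r n) : r ≤ 3 := by have := C.hr; omega

/-- valid source places -/
def vs (t : Ty) (lm r x : ℕ) : Prop := (x < t.k ∧ lm.testBit x = false) ∨ (6 ≤ x ∧ x < 6 + r)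

theorem Ctx.tbM (C : Ctx G S X t o v lm b r n) (x : ℕ) :
    tb (Nat.lor (Nat.xor (full t.k) lm) (Nat.shiftLeft (full (Nat.sub 3 (pcM lm))) 6)) x = true ↔
      vs t lm r x := by
  have hr : Nat.sub 3 (pcM lm) = r := by
    have h1 : Nat.sub 3 (pcM lm) = 3 - pcM lm := rfl
    have := C.hr; omega
  rw [hr, tb_eq]
  have h1 : Nat.lor (Nat.xor (full t.k) lm) (Nat.shiftLeft (full r) 6) =
    ((full t.k) ^^^ lm) ||| ((full r) <<< 6) := rfl
  rw [h1, Nat.testBit_or, Nat.testBit_xor, full_testBit, Nat.testBit_shiftLeft, full_testBit]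
  unfold vs
  have hk := C.hk
  by_cases hx : 6 ≤ x
  · have h2 : ¬ x < t.k := by omega
    have h3 : lm.testBit x = false := testBit_of_lt64 C.lm64 hx
    simp only [h2, h3, hx, decide_false, Bool.false_bne, ge_iff_le, decide_true, Bool.true_and,
      Bool.false_or, decide_eq_true_eq, false_and, true_and, false_or]
    omega
  · have h4 : ¬ (x ≥ 6) := hx
    simp only [hx, h4, decide_false, Bool.false_and, Bool.or_false, false_and, or_false]
    by_cases h2 : x < t.k
    · simp only [h2, decide_true, Bool.true_bne, Bool.not_eq_true', true_and]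
    · have h3 : lm.testBit x = false := by
        cases h : lm.testBit x
        · rfl
        · exact absurd ((C.hlm x).1 h).1 h2
      simp [h2, h3]

/-- the target ports -/
structure Prt (t : Ty) (lm b r k' s' c : ℕ) : Prop where
  p1 : ∀ i < k', vs t lm r (dig c i)
  p2 : ∀ x, vs t lm r x → ∃ i < k', dig c i = x
  p3 : ∀ i < k', ∀ j < k', dig c i = dig c j → i = j
  p4 : ∀ i < k', (i < s' ↔ (if dig c i < 6 then dig c i < t.s else dig c i - 6 < b))

theorem Ctx.prt (C : Ctx G S X t o v lm b r n) {k' s' c : ℕ}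
    (h : portsOK t lm b k' s' c = true) : Prt t lm b r k' s' c := by
  unfold portsOK at h
  simp only [Bool.and_eq_true, allB_iff] at h
  obtain ⟨h1, h2, h3, h4⟩ := h
  refine ⟨fun i hi => (C.tbM _).1 (h1 i hi), ?_, ?_, ?_⟩
  · intro x hx
    have hx9 : x < 9 := by
      have := C.rle; have := C.hk
      rcases hx with hx | hx <;> omega
    have := h2 x hx9
    rw [(C.tbM x).2 hx, cond_true, anyB_iff] at this
    obtain ⟨i, hi, h⟩ := this
    exact ⟨i, hi, Nat.eq_of_beq_eq_true h⟩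
  · have key : ∀ i < k', ∀ j < i, dig c j ≠ dig c i := by
      intro i hi j hj heq
      have := h3 i hi j hj
      rw [heq] at this
      simp at this
    intro i hi j hj hij
    rcases Nat.lt_trichotomy i j with h | h | h
    · exact absurd hij (key j hj i h)
    · exact h
    · exact absurd hij.symm (key i hi j h)
  · intro i hi
    have := h4 i hi
    rw [beq_iff_eq] at this
    have e1 : ∀ a b : ℕ, Nat.blt a b = decide (a < b) := by
      intro a b
      by_cases h : a < b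
      · rw [decide_eq_true h]; exact Nat.ble_eq_true_of_le h
      · rw [decide_eq_false h]
        cases h' : Nat.blt a b
        · rfl
        · exact absurd (Nat.le_of_ble_eq_true h') h
    rw [e1, e1, e1, e1] at this
    by_cases h6 : dig c i < 6
    · rw [if_pos h6]
      rw [decide_eq_true h6, cond_true, decide_eq_decide] at this
      exact this
    · rw [if_neg h6]
      rw [decide_eq_false h6, cond_false, decide_eq_decide] at this
      exact this

/-- basic facts on the edges at the source places -/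
theorem Ctx.src_cases (C : Ctx G S X t o v lm b r n) {x : ℕ} (hx : vs t lm r x) :
    (x < 6 ∧ x < t.k ∧ src o n x = o x ∧ o x ∈ cut G X ∧ v ∉ G.ends (o x)) ∨
    (¬ x < 6 ∧ x - 6 < r ∧ src o n x = n (x - 6) ∧ n (x - 6) ∉ cut G X ∧
      v ∈ G.ends (n (x - 6))) := by
  have hk := C.hk
  rcases hx with ⟨h1, h2⟩ | ⟨h1, h2⟩
  · left
    have h6 : x < 6 := by omega
    refine ⟨h6, h1, by unfold src; rw [if_pos h6], C.inv.mem x h1, ?_⟩
    intro hv
    have := (C.hlm x).2 ⟨h1, hv⟩
    rw [h2] at this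
    exact absurd this (by simp)
  · right
    have h6 : ¬ x < 6 := by omega
    have hq : x - 6 < r := by omega
    exact ⟨h6, hq, by unfold src; rw [if_neg h6], (C.hn _ hq).2, (C.hn _ hq).1⟩

theorem Ctx.src_mem (C : Ctx G S X t o v lm b r n) {x : ℕ} (hx : vs t lm r x) :
    src o n x ∈ cut G (insert v X) := by
  rw [cut_insert C.hv]
  rcases C.src_cases hx with ⟨_, _, h, h1, h2⟩ | ⟨_, _, h, h1, h2⟩
  · rw [h]; exact Or.inl ⟨h1, h2⟩
  · rw [h]; exact Or.inr ⟨h2, h1⟩

theorem Ctx.src_sur (C : Ctx G S X t o v lm b r n) {e : E} (he : e ∈ cut G (insert v X)) :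
    ∃ x, vs t lm r x ∧ src o n x = e := by
  have hk := C.hk
  rw [cut_insert C.hv] at he
  rcases he with ⟨h1, h2⟩ | ⟨h1, h2⟩
  · obtain ⟨i, hi, h⟩ := C.inv.sur e h1
    refine ⟨i, Or.inl ⟨hi, ?_⟩, by unfold src; rw [if_pos (by omega), h]⟩
    cases h' : lm.testBit i
    · rfl
    · have := ((C.hlm i).1 h').2
      rw [h] at this
      exact absurd this h2
  · obtain ⟨q, hq, h⟩ := C.hns e h1 h2
    refine ⟨6 + q, Or.inr ⟨by omega, by omega⟩, ?_⟩
    unfold src
    rw [if_neg (by omega), show 6 + q - 6 = q by omega, h]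

theorem Ctx.src_inj (C : Ctx G S X t o v lm b r n) {x y : ℕ} (hx : vs t lm r x)
    (hy : vs t lm r y) (h : src o n x = src o n y) : x = y := by
  rcases C.src_cases hx with ⟨h6, hxk, hx1, hx2, _⟩ | ⟨h6, hxr, hx1, hx2, _⟩ <;>
  rcases C.src_cases hy with ⟨g6, hyk, hy1, hy2, _⟩ | ⟨g6, hyr, hy1, hy2, _⟩
  · rw [hx1, hy1] at h; exact C.inv.inj x hxk y hyk h
  · rw [hx1, hy1] at h; rw [h] at hx2; exact absurd hx2 hy2
  · rw [hx1, hy1] at h; rw [h] at hx2; exact absurd hy2 hx2
  · rw [hx1, hy1] at h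
    have := C.hni _ hxr _ hyr h
    omega

end

end Pool.Agent.TH697.CW6
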