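import Pool.Agent.TH697.CW6.Chk
import Pool.Agent.Helper347.SabGraph

set_option autoImplicit false
set_option linter.unusedVariables false
set_option linter.unusedSectionVars false

open Finset
open Pool.Agent.Helper347.Sab

namespace Pool.Agent.TH697.CW6

/-! ## the functions of the checker -/

theorem allB_iff {n : ℕ} {p : ℕ → Bool} : allB n p = true ↔ ∀ j < n, p j = true := by
  induction n with
  | zero => simp [allB]
  | succ n ih =>
    have h0 : allB (n + 1) p = cond (p n) (allB n p) false := rfl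
    rw [h0]
    cases h : p n
    · simp only [cond_false, Bool.false_eq_true, false_iff, not_forall]
      exact ⟨n, by omega, by simp [h]⟩
    · rw [cond_true, ih]
      constructor
      · intro H j hj
        rcases Nat.lt_succ_iff_lt_or_eq.1 hj with h' | h'
        · exact H j h'
        · subst h'; exact h
      · intro H j hj; exact H j (by omega)

theorem anyB_iff {n : ℕ} {p : ℕ → Bool} : anyB n p = true ↔ ∃ j < n, p j = true := by
  induction n with
  | zero => simp [anyB]
  | succ n ih =>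
    have h0 : anyB (n + 1) p = cond (p n) true (anyB n p) := rfl
    rw [h0]
    cases h : p n
    · rw [cond_false, ih]
      constructor
      · rintro ⟨j, hj, H⟩; exact ⟨j, by omega, H⟩
      · rintro ⟨j, hj, H⟩
        rcases Nat.lt_succ_iff_lt_or_eq.1 hj with h' | h'
        · exact ⟨j, h', H⟩
        · subst h'; rw [h] at H; exact absurd H (by simp)
    · simp only [cond_true, true_iff]
      exact ⟨n, by omega, h⟩

theorem tb_eq (m i : ℕ) : tb m i = m.testBit i := by
  have h1 : Nat.land (Nat.shiftRight m i) 1 = (m >>> i) &&& 1 := rfl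
  unfold tb
  rw [h1, Nat.and_one_is_mod, Nat.shiftRight_eq_div_pow, Nat.testBit_eq_decide_div_mod_eq]
  by_cases h : m / 2 ^ i % 2 = 1
  · rw [h]; rfl
  · have : m / 2 ^ i % 2 = 0 := by omega
    rw [this]; rfl

theorem rowOf_lt (st j i : ℕ) : rowOf st j i < 32 := by
  have : rowOf st j i = (st >>> (30 * j + 5 * i)) &&& 31 := rfl
  rw [this]
  exact lt_of_le_of_lt Nat.and_le_right (by norm_num)

theorem pcM_eq : ∀ m < 64, pcM m = ((range 6).filter fun i => m.testBit i = true).card := by
  decide +kernel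

def sg (p c : ℕ) : ℕ := Nat.land (Nat.shiftRight SG (Nat.add (Nat.mul 15 p) (Nat.mul 3 c))) 7

theorem ap_spec : ∀ p < 120, ∀ r < 32, ap p r < 32 ∧ pcM (ap p r) = pcM r ∧
    ∀ c < 5, (ap p r).testBit c = r.testBit (sg p c) := by
  decide +kernel

theorem sg_lt : ∀ p < 120, ∀ c < 5, sg p c < 5 := by
  decide +kernel

theorem full_testBit (k i : ℕ) : (full k).testBit i = decide (i < k) := by
  have : full k = 2 ^ k - 1 := by
    have : full k = (1 <<< k) - 1 := rfl
    rw [this, Nat.one_shiftLeft]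
  rw [this, Nat.testBit_two_pow_sub_one]

theorem full_lt (k : ℕ) (hk : k ≤ 6) : full k < 64 := by
  have : full k = 2 ^ k - 1 := by
    have : full k = (1 <<< k) - 1 := rfl
    rw [this, Nat.one_shiftLeft]
  rw [this]
  have h1 : 2 ^ k ≤ 2 ^ 6 := Nat.pow_le_pow_right (by norm_num) hk
  have h2 : 0 < 2 ^ k := by positivity
  omega

theorem rem_testBit (m p i : ℕ) : (rem m p).testBit i = (m.testBit i && !(p.testBit i)) := by
  have : rem m p = m ^^^ (m &&& p) := rfl
  rw [this, Nat.testBit_xor, Nat.testBit_and]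
  cases m.testBit i <;> cases p.testBit i <;> rfl

theorem lt64_of {m : ℕ} (h : ∀ i, 6 ≤ i → m.testBit i = false) : m < 64 := by
  by_contra hm
  push Not at hm
  obtain ⟨i, hi, hi2⟩ := Nat.exists_ge_and_testBit_of_ge_two_pow (n := 6) (x := m) (by simpa using hm)
  rw [h i hi] at hi2
  exact absurd hi2 (by simp)

theorem testBit_of_lt64 {m i : ℕ} (h : m < 64) (hi : 6 ≤ i) : m.testBit i = false := by
  apply Nat.testBit_lt_two_pow
  calc m < 64 := h
    _ = 2 ^ 6 := by norm_num
    _ ≤ 2 ^ i := Nat.pow_le_pow_right (by norm_num) hi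

/-- masks exist -/
theorem exists_mask (k : ℕ) : ∀ p : ℕ → Prop,
    ∃ m : ℕ, ∀ i : ℕ, (m.testBit i = true ↔ (i < k ∧ p i)) := by
  classical
  induction k with
  | zero => intro p; exact ⟨0, fun i => by simp⟩
  | succ k ih =>
    intro p
    obtain ⟨m, hm⟩ := ih (fun i => p (i + 1))
    refine ⟨Nat.bit (decide (p 0)) m, fun i => ?_⟩
    cases i with
    | zero => simp
    | succ i =>
      rw [Nat.testBit_bit_succ, hm]
      constructor
      · rintro ⟨h1, h2⟩; exact ⟨by omega, h2⟩
      · rintro ⟨h1, h2⟩; exact ⟨by omega, h2⟩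

/-- even columns -/
theorem even_rows (R : ℕ → ℕ) (k : ℕ) (hk : k ≤ 6)
    (h : R 0 ^^^ (R 1 ^^^ (R 2 ^^^ (R 3 ^^^ (R 4 ^^^ R 5)))) = 0)
    (hz : ∀ i, k ≤ i → i < 6 → R i = 0) (c : ℕ) :
    Even ((range k).filter fun i => (R i).testBit c = true).card := by
  have h1 : ((range k).filter fun i => (R i).testBit c = true) =
      (range 6).filter fun i => (R i).testBit c = true := by
    ext i
    simp only [mem_filter, mem_range]
    constructor
    · rintro ⟨h1, h2⟩; exact ⟨by omega, h2⟩
    · rintro ⟨h1, h2⟩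
      refine ⟨?_, h2⟩
      by_contra h3
      rw [hz i (by omega) h1] at h2
      simp at h2
  rw [h1, card_filter]
  have h2 : ((R 0).testBit c ^^ ((R 1).testBit c ^^ ((R 2).testBit c ^^ ((R 3).testBit c ^^
      ((R 4).testBit c ^^ (R 5).testBit c))))) = false := by
    rw [← Nat.testBit_xor, ← Nat.testBit_xor, ← Nat.testBit_xor, ← Nat.testBit_xor,
      ← Nat.testBit_xor, h, Nat.zero_testBit]
  simp only [sum_range_succ, sum_range_zero]
  revert h2
  generalize (R 0).testBit c = b0
  generalize (R 1).testBit c = b1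
  generalize (R 2).testBit c = b2
  generalize (R 3).testBit c = b3
  generalize (R 4).testBit c = b4
  generalize (R 5).testBit c = b5
  revert b0 b1 b2 b3 b4 b5
  decide

theorem pats_complete_aux : ((List.range 7).all fun k => (List.range (2 ^ k)).all fun lm =>
    (List.range 4).all fun b => !(Nat.ble (pcM lm) 3 && (Nat.ble b (3 - pcM lm) &&
      (Nat.ble (k + 3 - 2 * pcM lm) 6 && !(Nat.beq (k + 3 - 2 * pcM lm) 1)))) ||
      (pats k).contains (lm, b)) = true := by
  decide +kernel

theorem pats_complete (k : ℕ) (hk : k < 7) (lm : ℕ) (hlm : lm < 2 ^ k) (b : ℕ) (hb : b < 4)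
    (h1 : pcM lm ≤ 3) (h2 : b ≤ 3 - pcM lm) (h3 : k + 3 - 2 * pcM lm ≤ 6)
    (h4 : k + 3 - 2 * pcM lm ≠ 1) : (lm, b) ∈ pats k := by
  have H := List.all_eq_true.1 pats_complete_aux k (List.mem_range.2 hk)
  have H2 := List.all_eq_true.1 H lm (List.mem_range.2 hlm)
  have H3 := List.all_eq_true.1 H2 b (List.mem_range.2 hb)
  have e1 : Nat.ble (pcM lm) 3 = true := Nat.ble_eq_true_of_le h1
  have e2 : Nat.ble b (3 - pcM lm) = true := Nat.ble_eq_true_of_le h2
  have e3 : Nat.ble (k + 3 - 2 * pcM lm) 6 = true := Nat.ble_eq_true_of_le h3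
  have e4 : Nat.beq (k + 3 - 2 * pcM lm) 1 = false := by
    cases h : Nat.beq (k + 3 - 2 * pcM lm) 1
    · rfl
    · exact absurd (Nat.eq_of_beq_eq_true h) h4
  rw [e1, e2, e3, e4] at H3
  simpa using H3

end Pool.Agent.TH697.CW6
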